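import Pool.Agent.H75.PRL.S5
import Pool.Agent.H51.RZ.FB1

/-!
# PRL, module FB3: the fibre over a cubic of type `T12`, without common isotropic vector

`B` without common isotropic vector has `B00 ≠ 0`; the common isotropic vectors `zz r 1` are the
roots of a quartic, which after the unipotent normalisation `B01 = 0` is
`b0 r⁴ + (D - x) r² - E r + y / 4`, `D = dl B`, `E = ep B`.  If `g(D)` is a square (`g` the
irreducible quadratic factor) it is the product of two quadratic polynomials, the product of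
whose discriminants is `disc g / b0²`: there is a root.  So `g(D)` is not a square, and `B` is
determined by `B01`, `D` and `E` (or `B00` if `D` is the root of the cubic).
-/

set_option autoImplicit false

namespace Pool.PRL

open Polynomial Matrix Pool.AVR Pool.AVS Pool.RZ

namespace FB3

variable {k : Type} [Field k]

/-- The quartic has a root. -/
lemma quartic {b0 D E x y e β γ w : k} (h2 : (2 : k) ≠ 0) (hb : b0 ≠ 0) (hw : w ≠ 0)
    (h1 : 2 * x = e - β - D) (hy : y * b0 = 2 * x * D + x ^ 2 - (γ - e * β))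
    (hE : b0 * E ^ 2 = -((D - e) * (D ^ 2 + β * D + γ))) (hg : D ^ 2 + β * D + γ = w ^ 2)
    (hs : IsSquare (-(2 * D + β + 2 * w) / b0) ∨ IsSquare (-(2 * D + β - 2 * w) / b0)) :
    ∃ r : k, b0 * r ^ 4 + (D - x) * r ^ 2 - E * r + y / 4 = 0 := by
  have h4 : (4 : k) ≠ 0 := by
    have : (4 : k) = 2 * 2 := by norm_num
    rw [this]; exact mul_ne_zero h2 h2
  obtain ⟨l, hl⟩ : ∃ l, l = E / w := ⟨_, rfl⟩
  have hlw : l * w = E := by rw [hl]; field_simp
  have hll : b0 * l ^ 2 = e - D := by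
    have : (b0 * l ^ 2) * w ^ 2 = (e - D) * w ^ 2 := by
      rw [← hlw] at hE
      rw [hg] at hE
      linear_combination hE
    exact mul_right_cancel₀ (pow_ne_zero 2 hw) this
  have hyb : (e - x) ^ 2 - w ^ 2 = y * b0 := by
    rw [hy, ← hg]
    linear_combination (-(D + e)) * h1
  -- the factorisation
  have fac : ∀ r : k, b0 * r ^ 4 + (D - x) * r ^ 2 - E * r + y / 4 =
      b0 * ((r ^ 2 + l * r + ((e - x) + w) / (2 * b0)) *
        (r ^ 2 - l * r + ((e - x) - w) / (2 * b0))) := by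
    intro r
    have hyy : y = ((e - x) ^ 2 - w ^ 2) / b0 := by
      rw [hyb]; field_simp
    rw [hyy, ← hlw]
    have hx : D - x = (e - x) - b0 * l ^ 2 := by rw [hll]; ring
    rw [hx]
    field_simp
    ring
  rcases hs with ⟨σ, hσ⟩ | ⟨σ, hσ⟩
  · refine ⟨(-l + σ) / 2, ?_⟩
    rw [fac]
    have hσ' : b0 * σ ^ 2 = -(2 * D + β + 2 * w) := by
      have : σ ^ 2 = -(2 * D + β + 2 * w) / b0 := by rw [hσ]; ring
      rw [this]; field_simp
    have : ((-l + σ) / 2) ^ 2 + l * ((-l + σ) / 2) + ((e - x) + w) / (2 * b0) = 0 := by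
      have h5 : (4 * b0) * (((-l + σ) / 2) ^ 2 + l * ((-l + σ) / 2) + ((e - x) + w) / (2 * b0)) =
          (4 * b0) * 0 := by
        field_simp
        linear_combination hσ' - hll - h1
      exact mul_left_cancel₀ (mul_ne_zero h4 hb) h5
    rw [this]
    ring
  · refine ⟨(l + σ) / 2, ?_⟩
    rw [fac]
    have hσ' : b0 * σ ^ 2 = -(2 * D + β - 2 * w) := by
      have : σ ^ 2 = -(2 * D + β - 2 * w) / b0 := by rw [hσ]; ring
      rw [this]; field_simp
    have : ((l + σ) / 2) ^ 2 - l * ((l + σ) / 2) + ((e - x) - w) / (2 * b0) = 0 := by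
      have h5 : (4 * b0) * (((l + σ) / 2) ^ 2 - l * ((l + σ) / 2) + ((e - x) - w) / (2 * b0)) =
          (4 * b0) * 0 := by
        field_simp
        linear_combination hσ' - hll - h1
      exact mul_left_cancel₀ (mul_ne_zero h4 hb) h5
    rw [this]
    ring

/-- The quartic of common isotropic vectors, normalised. -/
lemma vl_norm {B : Matrix (Fin 3) (Fin 3) k} (hB : Bᵀ = B) (h2 : (2 : k) ≠ 0) (h0 : B 0 0 ≠ 0)
    (r : k) : FB1.vl B (r - B 0 1 / (2 * B 0 0)) =
      B 0 0 * r ^ 4 + (FB2.dl B - (B 0 2 + B 0 1 ^ 2 / (2 * B 0 0))) * r ^ 2 - FB2.ep B * r +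
        (B 2 2 + 2 * B 1 2 * B 0 1 / B 0 0 + (B 1 1 - B 0 2) * B 0 1 ^ 2 / B 0 0 ^ 2 -
          3 / 4 * (B 0 1 ^ 4 / B 0 0 ^ 3)) / 4 := by
  have h4 : (4 : k) ≠ 0 := by
    have : (4 : k) = 2 * 2 := by norm_num
    rw [this]; exact mul_ne_zero h2 h2
  unfold FB1.vl
  rw [FB1.bil_eq B hB]
  unfold FB2.dl FB2.ep
  simp only [zz, Matrix.cons_val_zero, Matrix.cons_val_one, Matrix.cons_val]
  field_simp
  ring

lemma trR_of_vl {B : Matrix (Fin 3) (Fin 3) k} (h2 : (2 : k) ≠ 0) (r : k)
    (h : FB1.vl B r = 0) : TrR B := by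
  refine ⟨zz r 1, ?_, ?_, h⟩
  · intro h0
    have := congrFun h0 2
    simp [zz, h2] at this
  · rw [FB1.bil_eq (AA k) (by ext i j; fin_cases i <;> fin_cases j <;> rfl)]
    simp [AA, zz]
    field_simp
    ring

lemma ne00 {B : Matrix (Fin 3) (Fin 3) k} (hB : Bᵀ = B) (h : ¬ TrR B) : B 0 0 ≠ 0 := by
  intro h0
  apply h
  refine ⟨![1, 0, 0], ?_, ?_, ?_⟩
  · intro h1
    have := congrFun h1 0
    simp at this
  · rw [FB1.bil_eq (AA k) (by ext i j; fin_cases i <;> fin_cases j <;> rfl)]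
    simp [AA]
  · rw [FB1.bil_eq B hB]
    simp [h0]

lemma sq_or_sq [Finite k] (h2 : (2 : k) ≠ 0) {u v : k} (hu : u ≠ 0) (hv : v ≠ 0)
    (h : ¬ IsSquare (u * v)) : IsSquare u ∨ IsSquare v := by
  classical
  have : Fintype k := Fintype.ofFinite k
  have hc : ringChar k ≠ 2 := by
    intro hc
    apply h2
    have := ringChar.Nat.cast_ringChar (R := k)
    rw [hc] at this
    exact_mod_cast this
  by_contra hcon
  push Not at hcon
  apply h
  have e1 := (quadraticChar_neg_one_iff_not_isSquare (F := k)).2 hcon.1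
  have e2 := (quadraticChar_neg_one_iff_not_isSquare (F := k)).2 hcon.2
  have e3 : quadraticChar k (u * v) = 1 := by rw [map_mul, e1, e2]; norm_num
  exact (quadraticChar_one_iff_isSquare (mul_ne_zero hu hv)).1 e3

/-- If `g(dl B)` is a square there is a common isotropic vector. -/
lemma main [Finite k] {e β γ : k} (h2 : (2 : k) ≠ 0) (hq : ∀ x : k, x ^ 2 + β * x + γ ≠ 0)
    {B : Matrix (Fin 3) (Fin 3) k} (hB : B ∈ Fb (β - e) (γ - e * β) (-(e * γ)))
    (h0 : B 0 0 ≠ 0) (hs : IsSquare (FB2.dl B ^ 2 + β * FB2.dl B + γ)) : TrR B := by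
  have h4 : (4 : k) ≠ 0 := by
    have : (4 : k) = 2 * 2 := by norm_num
    rw [this]; exact mul_ne_zero h2 h2
  have hkey := FB2.key h2 hB h0
  obtain ⟨hS, ha, hb, -⟩ := hB
  obtain ⟨w, hw⟩ := hs
  have hw0 : w ≠ 0 := by
    rintro rfl
    exact hq _ (by rw [hw]; ring)
  -- the discriminants
  have hdisc : ∀ u : k, β ^ 2 - 4 * γ ≠ u ^ 2 := by
    intro u hu
    apply hq ((u - β) / 2)
    field_simp
    linear_combination -hu
  have hprod : (-(2 * FB2.dl B + β + 2 * w)) * (-(2 * FB2.dl B + β - 2 * w)) =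
      β ^ 2 - 4 * γ := by
    linear_combination (4 : k) * hw
  have hn1 : -(2 * FB2.dl B + β + 2 * w) / B 0 0 ≠ 0 := by
    intro h
    rw [div_eq_zero_iff] at h
    rcases h with h | h
    · rw [h, zero_mul] at hprod
      exact hdisc 0 (by rw [← hprod]; ring)
    · exact h0 h
  have hn2 : -(2 * FB2.dl B + β - 2 * w) / B 0 0 ≠ 0 := by
    intro h
    rw [div_eq_zero_iff] at h
    rcases h with h | h
    · rw [h, mul_zero] at hprod
      exact hdisc 0 (by rw [← hprod]; ring)
    · exact h0 h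
  have hor := sq_or_sq h2 hn1 hn2 (by
    rintro ⟨u, hu⟩
    apply hdisc (u * B 0 0)
    rw [← hprod]
    have : -(2 * FB2.dl B + β + 2 * w) * -(2 * FB2.dl B + β - 2 * w) =
        (-(2 * FB2.dl B + β + 2 * w) / B 0 0 * (-(2 * FB2.dl B + β - 2 * w) / B 0 0)) *
          B 0 0 ^ 2 := by
      field_simp
    rw [this, hu]
    ring)
  obtain ⟨r, hr⟩ := quartic (b0 := B 0 0) (D := FB2.dl B) (E := FB2.ep B)
    (x := B 0 2 + B 0 1 ^ 2 / (2 * B 0 0))
    (y := B 2 2 + 2 * B 1 2 * B 0 1 / B 0 0 + (B 1 1 - B 0 2) * B 0 1 ^ 2 / B 0 0 ^ 2 -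
          3 / 4 * (B 0 1 ^ 4 / B 0 0 ^ 3)) (e := e) (β := β) (γ := γ) (w := w) h2 h0 hw0
    (by
      unfold ia at ha
      unfold FB2.dl
      field_simp
      linear_combination (-B 0 0) * ha)
    (by
      unfold ib at hb
      unfold FB2.dl
      rw [← hb]
      field_simp
      ring)
    (by rw [hkey]; ring) (by rw [hw]; ring) hor
  exact trR_of_vl h2 _ (by rw [vl_norm hS h2 h0]; exact hr)

/-- The number of non-square values of an irreducible quadratic polynomial. -/
lemma card_nonsq [Fintype k] [DecidableEq k] {β γ : k} (h2 : (2 : k) ≠ 0)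
    (hq : ∀ x : k, x ^ 2 + β * x + γ ≠ 0) (S : Finset k)
    (hS : ∀ d ∈ S, ¬ IsSquare (d ^ 2 + β * d + γ)) : 2 * S.card ≤ Fintype.card k + 1 := by
  have h4 : (4 : k) ≠ 0 := by
    have : (4 : k) = 2 * 2 := by norm_num
    rw [this]; exact mul_ne_zero h2 h2
  set δ : k := (β ^ 2 - 4 * γ) / 4 with hδ
  have hdl : ∀ x : k, x ^ 2 + β * x + γ = (x + β / 2) ^ 2 - δ := by
    intro x; rw [hδ]; field_simp; ring
  have hδ0 : δ ≠ 0 := by
    intro h
    apply hq (-β / 2)
    rw [hdl, h]
    field_simp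
    ring
  let ph : k → k := fun u => (u + δ / u) / 2 - β / 2
  have hsub : (Finset.univ.erase (0 : k)).image ph ⊆ Sᶜ := by
    intro x hx
    rw [Finset.mem_image] at hx
    obtain ⟨u, hu, rfl⟩ := hx
    rw [Finset.mem_compl]
    intro hmem
    apply hS _ hmem
    refine ⟨(u - δ / u) / 2, ?_⟩
    have hu0 : u ≠ 0 := (Finset.mem_erase.1 hu).1
    rw [hdl]
    simp only [ph]
    field_simp
    ring
  have hcard : (Finset.univ.erase (0 : k)).card ≤
      2 * ((Finset.univ.erase (0 : k)).image ph).card := by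
    apply Finset.card_le_mul_card_image
    intro x _
    -- at most two preimages
    by_contra hcon
    push Not at hcon
    obtain ⟨u1, u2, u3, m1, m2, m3, n12, n13, n23⟩ := Finset.two_lt_card_iff.1 hcon
    have hh : ∀ u ∈ (Finset.univ.erase (0 : k)).filter (fun a => ph a = x),
        u ^ 2 - 2 * (x + β / 2) * u + δ = 0 := by
      intro u hu
      rw [Finset.mem_filter] at hu
      have hu0 : u ≠ 0 := (Finset.mem_erase.1 hu.1).1
      rw [← hu.2]
      simp only [ph]
      field_simp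
      ring
    have e1 := hh _ m1
    have e2 := hh _ m2
    have e3 := hh _ m3
    have f12 : u1 + u2 - 2 * (x + β / 2) = 0 := by
      have : (u1 - u2) * (u1 + u2 - 2 * (x + β / 2)) = 0 := by linear_combination e1 - e2
      exact (mul_eq_zero.1 this).resolve_left (sub_ne_zero.2 n12)
    have f13 : u1 + u3 - 2 * (x + β / 2) = 0 := by
      have : (u1 - u3) * (u1 + u3 - 2 * (x + β / 2)) = 0 := by linear_combination e1 - e3
      exact (mul_eq_zero.1 this).resolve_left (sub_ne_zero.2 n13)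
    exact n23 (by linear_combination f12 - f13)
  have h5 := Finset.card_le_card hsub
  rw [Finset.card_compl] at h5
  rw [Finset.card_erase_of_mem (Finset.mem_univ _), Finset.card_univ] at hcard
  have h6 : S.card ≤ Fintype.card k := Finset.card_le_univ S
  have h7 : 0 < Fintype.card k := Fintype.card_pos
  omega

end FB3

open FB3 in
theorem fb3 : FB3Stmt := by
  classical
  intro k _ _ h2 t ht
  have : Fintype k := Fintype.ofFinite k
  rw [Nat.card_eq_fintype_card]
  obtain ⟨e, β, γ, hq, rfl⟩ := ht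
  change 2 * {B : Matrix (Fin 3) (Fin 3) k | B ∈ Fb (β - e) (γ - e * β) (-(e * γ)) ∧
      ¬ TrR B}.ncard ≤ _
  let N : Finset k := Finset.univ.filter fun d => ¬ IsSquare (d ^ 2 + β * d + γ)
  let T : Finset (k × k × k) := (Finset.univ : Finset k) ×ˢ (N ×ˢ (Finset.univ.erase (0 : k)))
  have hN : 2 * N.card ≤ Fintype.card k + 1 :=
    card_nonsq h2 hq N (fun d hd => (Finset.mem_filter.1 hd).2)
  let φ : Matrix (Fin 3) (Fin 3) k → k × k × k := fun B =>
    (B 0 1, FB2.dl B, if FB2.dl B = e then B 0 0 else FB2.ep B)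
  have hroot : ∀ d : k, d ^ 3 + (β - e) * d ^ 2 + (γ - e * β) * d + -(e * γ) =
      (d - e) * (d ^ 2 + β * d + γ) := by intro d; ring
  have hep : ∀ B ∈ Fb (β - e) (γ - e * β) (-(e * γ)), B 0 0 ≠ 0 → FB2.dl B ≠ e →
      FB2.ep B ≠ 0 := by
    intro B hB h0 hd he
    have := FB2.key h2 hB h0
    rw [he, hroot] at this
    have h3 : (FB2.dl B - e) * (FB2.dl B ^ 2 + β * FB2.dl B + γ) = 0 := by
      linear_combination this
    rcases mul_eq_zero.1 h3 with h | h
    · exact hd (sub_eq_zero.1 h)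
    · exact hq _ h
  have hle : {B : Matrix (Fin 3) (Fin 3) k | B ∈ Fb (β - e) (γ - e * β) (-(e * γ)) ∧
      ¬ TrR B}.ncard ≤ T.card := by
    rw [← Set.ncard_coe_finset]
    apply Set.ncard_le_ncard_of_injOn φ
    · rintro B ⟨hB, hT⟩
      have h0 := ne00 hB.1 hT
      have hns : ¬ IsSquare (FB2.dl B ^ 2 + β * FB2.dl B + γ) :=
        fun hs => hT (main h2 hq hB h0 hs)
      simp only [φ, T, N, Finset.coe_product, Set.mem_prod, Finset.mem_coe, Finset.mem_univ,
        Finset.mem_filter, Finset.mem_erase, true_and, and_true]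
      refine ⟨hns, ?_⟩
      split_ifs with h
      · exact h0
      · exact hep B hB h0 h
    · rintro B ⟨hB, hT⟩ B' ⟨hB', hT'⟩ h
      have h0 := ne00 hB.1 hT
      have h0' := ne00 hB'.1 hT'
      simp only [φ, Prod.mk.injEq] at h
      obtain ⟨e1, e2, e3⟩ := h
      by_cases hd : FB2.dl B = e
      · have hd' : FB2.dl B' = e := by rw [← e2]; exact hd
        rw [if_pos hd, if_pos hd'] at e3
        have k1 := FB2.key h2 hB h0
        have k2 := FB2.key h2 hB' h0'
        rw [hroot, hd, sub_self, zero_mul, neg_zero] at k1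
        rw [hroot, hd', sub_self, zero_mul, neg_zero] at k2
        have q1 : FB2.ep B = 0 := by
          exact pow_eq_zero_iff (two_ne_zero) |>.1 ((mul_eq_zero.1 k1).resolve_left h0)
        have q2 : FB2.ep B' = 0 := by
          exact pow_eq_zero_iff (two_ne_zero) |>.1 ((mul_eq_zero.1 k2).resolve_left h0')
        obtain ⟨hs, ha, hb, hc⟩ := hB
        obtain ⟨hs', ha', hb', hc'⟩ := hB'
        unfold ia at ha ha'
        unfold ib at hb hb'
        unfold FB2.dl at e2
        unfold FB2.ep at q1 q2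
        rw [← e1, ← e3] at e2 q2 hb'
        have e11 : B 1 1 = B' 1 1 := by linear_combination e2
        rw [← e11] at ha' hb' q2
        have e02 : B 0 2 = B' 0 2 := by
          have : 2 * B 0 2 = 2 * B' 0 2 := by linear_combination ha' - ha
          exact mul_left_cancel₀ h2 this
        rw [← e02] at hb' q2
        have e12 : B 1 2 = B' 1 2 := by linear_combination q1 - q2
        rw [← e12] at hb'
        have e22 : B 2 2 = B' 2 2 := by
          have : B 2 2 * B 0 0 = B' 2 2 * B 0 0 := by linear_combination hb' - hb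
          exact mul_right_cancel₀ h0 this
        exact FB2.ext3 hs hs' e3 e1 e02 e11 e12 e22
      · have hd' : FB2.dl B' ≠ e := by rw [← e2]; exact hd
        rw [if_neg hd, if_neg hd'] at e3
        exact FB2.inj1 h2 hB hB' h0 h0' (hep B hB h0 hd) e1 e2 e3
  have hTc : T.card = Fintype.card k * (N.card * (Fintype.card k - 1)) := by
    simp only [T, Finset.card_product, Finset.card_univ,
      Finset.card_erase_of_mem (Finset.mem_univ _)]
  obtain ⟨q, hq'⟩ : ∃ q, Fintype.card k = q + 1 := ⟨Fintype.card k - 1, by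
      have := Fintype.card_pos (α := k); omega⟩
  rw [hTc, hq'] at hle
  rw [hq'] at hN ⊢
  have h1 : (q + 1) ^ 3 = (q + 1) * ((q + 1 + 1) * q) + (q + 1) := by ring
  rw [h1, Nat.add_sub_cancel]
  rw [Nat.add_sub_cancel] at hle
  calc 2 * {B : Matrix (Fin 3) (Fin 3) k | B ∈ Fb (β - e) (γ - e * β) (-(e * γ)) ∧
      ¬ TrR B}.ncard ≤ 2 * ((q + 1) * (N.card * q)) := Nat.mul_le_mul_left 2 hle
    _ = (q + 1) * ((2 * N.card) * q) := by ring
    _ ≤ (q + 1) * ((q + 1 + 1) * q) :=
      Nat.mul_le_mul_left _ (Nat.mul_le_mul_right _ hN)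

end Pool.PRL
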